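import Pool.Agent.W555.KS.Defs2

/-!
# Project KS, part KS-SPEC: the Lefschetz type theorem over fields of characteristic zero,
deduced from the characteristic two theorem and the genericity of spanning.
-/

set_option autoImplicit false

namespace Pool.Agent.W472.KS

open Finset MvPolynomial
open Pool.Agent.W555.KS

/-- degree `r` part of an ideal generated by homogeneous elements -/
theorem mem_span_of_homog {k : Type*} [Field k] {n : ℕ} {J : Type*} (g : J → MvPolynomial (Fin n) k)
    (e : J → ℕ) (hg : ∀ j, (g j).IsHomogeneous (e j)) (r : ℕ) (p : MvPolynomial (Fin n) k)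
    (hp : p.IsHomogeneous r) (hpI : p ∈ Ideal.span (Set.range g)) :
    p ∈ Submodule.span k (Set.range (fun x : {x : J × (Fin n →₀ ℕ) // x.2.degree + e x.1 = r} =>
      monomial x.1.2 (1 : k) * g x.1.1)) := by
  set T := Submodule.span k (Set.range
    (fun x : {x : J × (Fin n →₀ ℕ) // x.2.degree + e x.1 = r} =>
      monomial x.1.2 (1 : k) * g x.1.1)) with hT
  have key : ∀ q ∈ Ideal.span (Set.range g), ∀ a : MvPolynomial (Fin n) k,
      homogeneousComponent r (a * q) ∈ T := by
    intro q hq
    refine Submodule.span_induction (p := fun q _ => ∀ a : MvPolynomial (Fin n) k,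
      homogeneousComponent r (a * q) ∈ T) ?_ ?_ ?_ ?_ hq
    · rintro _ ⟨j, rfl⟩ a
      induction a using MvPolynomial.induction_on' with
      | monomial u c =>
        have h1 : (monomial u c * g j).IsHomogeneous (u.degree + e j) :=
          (isHomogeneous_monomial c rfl).mul (hg j)
        rw [homogeneousComponent_of_mem h1]
        split_ifs with h
        · have h2 : monomial u c * g j = c • (monomial u (1 : k) * g j) := by
            rw [← smul_mul_assoc, smul_monomial, smul_eq_mul, mul_one]
          rw [h2]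
          exact T.smul_mem _ (Submodule.subset_span ⟨⟨(j, u), h.symm⟩, rfl⟩)
        · exact T.zero_mem
      | add p1 p2 h1 h2 =>
        rw [add_mul, map_add]
        exact T.add_mem h1 h2
    · intro a
      simp
    · intro x y _ _ hx hy a
      rw [mul_add, map_add]
      exact T.add_mem (hx a) (hy a)
    · intro b x _ hx a
      rw [smul_eq_mul, ← mul_assoc]
      exact hx (a * b)
  have h := key p hpI 1
  rwa [one_mul, homogeneousComponent_eq_self hp] at h

/-- the linear map reading off the coefficients of degree `r` -/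
noncomputable def coeffs (k : Type*) [Field k] (n r : ℕ) :
    MvPolynomial (Fin n) k →ₗ[k] ({μ : Fin n →₀ ℕ // μ.degree = r} → k) :=
  LinearMap.pi (fun μ => MvPolynomial.lcoeff k μ.1)

theorem coeffs_apply (k : Type*) [Field k] (n r : ℕ) (p : MvPolynomial (Fin n) k)
    (μ : {μ : Fin n →₀ ℕ // μ.degree = r}) : coeffs k n r p μ = coeff μ.1 p := rfl

/-- a homogeneous polynomial is determined by its coefficients -/
theorem coeffs_inj (k : Type*) [Field k] (n r : ℕ) (p q : MvPolynomial (Fin n) k)
    (hp : p.IsHomogeneous r) (hq : q.IsHomogeneous r) (h : coeffs k n r p = coeffs k n r q) :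
    p = q := by
  ext μ
  by_cases hμ : μ.degree = r
  · exact congrFun h ⟨μ, hμ⟩
  · rw [hp.coeff_eq_zero hμ, hq.coeff_eq_zero hμ]

/-- every vector is the vector of coefficients of a homogeneous polynomial -/
theorem coeffs_surj (k : Type*) [Field k] (n r : ℕ) [Fintype {μ : Fin n →₀ ℕ // μ.degree = r}]
    (w : {μ : Fin n →₀ ℕ // μ.degree = r} → k) :
    ∃ p : MvPolynomial (Fin n) k, p.IsHomogeneous r ∧ coeffs k n r p = w := by
  classical
  refine ⟨∑ μ, monomial μ.1 (w μ), ?_, ?_⟩
  · exact IsHomogeneous.sum _ _ _ fun μ _ => isHomogeneous_monomial _ μ.2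
  · funext μ
    rw [coeffs_apply, coeff_sum]
    simp only [coeff_monomial]
    rw [Finset.sum_eq_single μ]
    · simp
    · intro b _ hb
      rw [if_neg]
      intro h
      exact hb (Subtype.ext h)
    · intro h
      exact absurd (Finset.mem_univ _) h

/-- the index type of the generators -/
abbrev GI (n d : ℕ) (L : Finset (Finset (Fin n))) : Type :=
  {σ : Finset (Fin n) // σ ∉ L} ⊕ (Fin d ⊕ Unit)

/-- the generators over a commutative ring, for a matrix `c` of coefficients -/
noncomputable def gens {R : Type} [CommRing R] (n d r : ℕ) (L : Finset (Finset (Fin n)))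
    (c : Fin (d + 1) × Fin n → R) : GI n d L → MvPolynomial (Fin n) R
  | Sum.inl σ => ∏ v ∈ σ.1, X v
  | Sum.inr (Sum.inl i) => ∑ v, C (c (i.castSucc, v)) * X v
  | Sum.inr (Sum.inr _) => (∑ v, C (c (Fin.last d, v)) * X v) ^ (2 * r - d)

/-- the degrees of the generators -/
def degs (n d r : ℕ) (L : Finset (Finset (Fin n))) : GI n d L → ℕ
  | Sum.inl σ => σ.1.card
  | Sum.inr (Sum.inl _) => 1
  | Sum.inr (Sum.inr _) => 2 * r - d

theorem gens_homog {R : Type} [CommRing R] (n d r : ℕ) (L : Finset (Finset (Fin n)))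
    (c : Fin (d + 1) × Fin n → R) (j : GI n d L) :
    (gens n d r L c j).IsHomogeneous (degs n d r L j) := by
  have hlin : ∀ i : Fin (d + 1), (∑ v, C (c (i, v)) * X v : MvPolynomial (Fin n) R).IsHomogeneous 1 :=
    fun i => IsHomogeneous.sum _ _ _ fun v _ => isHomogeneous_C_mul_X _ _
  rcases j with σ | i | u
  · have := IsHomogeneous.prod σ.1 (fun v => (X v : MvPolynomial (Fin n) R)) (fun _ => 1)
      (fun v _ => isHomogeneous_X _ _)
    simpa [gens, degs] using this
  · exact hlin _
  · have := (hlin (Fin.last d)).pow (2 * r - d)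
    simpa [gens, degs] using this

theorem gens_map {R S : Type} [CommRing R] [CommRing S] (f : R →+* S) (n d r : ℕ)
    (L : Finset (Finset (Fin n))) (c : Fin (d + 1) × Fin n → R) (j : GI n d L) :
    MvPolynomial.map f (gens n d r L c j) = gens n d r L (fun x => f (c x)) j := by
  rcases j with σ | i | u
  · simp [gens]
  · simp [gens]
  · simp [gens]

/-- the ideal generated by the generators -/
theorem span_gens {k : Type} [Field k] (n d r : ℕ) (L : Finset (Finset (Fin n)))
    (c : Fin (d + 1) × Fin n → k) :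
    Ideal.span (Set.range (gens n d r L c)) =
      srI k L ⊔ Ideal.span (Set.range (fun i : Fin d => lf (fun v => c (i.castSucc, v)))) ⊔
          Ideal.span {lf (fun v => c (Fin.last d, v)) ^ (2 * r - d)} := by
  rw [srI, ← Ideal.span_union, ← Ideal.span_union]
  congr 1
  ext p
  constructor
  · rintro ⟨j, rfl⟩
    rcases j with σ | i | u
    · exact Or.inl (Or.inl ⟨σ.1, σ.2, rfl⟩)
    · exact Or.inl (Or.inr ⟨i, rfl⟩)
    · exact Or.inr rfl
  · rintro ((⟨σ, hσ, rfl⟩ | ⟨i, rfl⟩) | h)
    · exact ⟨Sum.inl ⟨σ, hσ⟩, rfl⟩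
    · exact ⟨Sum.inr (Sum.inl i), rfl⟩
    · rw [Set.mem_singleton_iff] at h
      subst h
      exact ⟨Sum.inr (Sum.inr ()), rfl⟩

theorem spec (hspan : StSpan) (ht2 : StT2) : StSpec := by
  intro n d L hL hE r hdr
  classical
  set R := MvPolynomial (Fin (d + 1) × Fin n) ℤ with hR
  have : Finite {μ : Fin n →₀ ℕ // μ.degree = r} := (Finsupp.finite_of_degree_eq r).to_subtype
  let I1 : Fintype {μ : Fin n →₀ ℕ // μ.degree = r} := Fintype.ofFinite _
  have hfin : Finite {x : GI n d L × (Fin n →₀ ℕ) // x.2.degree + degs n d r L x.1 = r} := by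
    refine Set.Finite.to_subtype (s := {x : GI n d L × (Fin n →₀ ℕ) |
      x.2.degree + degs n d r L x.1 = r}) ?_
    refine Set.Finite.subset ((Set.finite_univ (α := GI n d L)).prod
      (Finsupp.finite_of_degree_le (σ := Fin n) r)) ?_
    rintro ⟨j, ν⟩ h
    refine ⟨Set.mem_univ _, ?_⟩
    simp only [Set.mem_setOf_eq] at h ⊢
    omega
  let I2 : Fintype {x : GI n d L × (Fin n →₀ ℕ) // x.2.degree + degs n d r L x.1 = r} :=
    Fintype.ofFinite _
  let A : {x : GI n d L × (Fin n →₀ ℕ) // x.2.degree + degs n d r L x.1 = r} →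
      {μ : Fin n →₀ ℕ // μ.degree = r} → MvPolynomial (Fin (d + 1) × Fin n) ℤ :=
    fun x μ => coeff μ.1 (monomial x.1.2 (1 : MvPolynomial (Fin (d + 1) × Fin n) ℤ) *
      gens n d r L (fun y => (X y : MvPolynomial (Fin (d + 1) × Fin n) ℤ)) x.1.1)
  -- change of coefficients of the rows
  have hrow : ∀ (k : Type) [Field k] (f : MvPolynomial (Fin (d + 1) × Fin n) ℤ →+* k)
      (x : {x : GI n d L × (Fin n →₀ ℕ) // x.2.degree + degs n d r L x.1 = r}),
      (fun μ => f (A x μ)) = coeffs k n r (monomial x.1.2 (1 : k) *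
        gens n d r L (fun y => f (X y)) x.1.1) := by
    intro k _ f x
    funext μ
    rw [coeffs_apply]
    show f (coeff μ.1 _) = _
    rw [← coeff_map, map_mul, gens_map, map_monomial, map_one]
  obtain ⟨F, hF0, hF⟩ := hspan (Fin (d + 1) × Fin n)
    {x : GI n d L × (Fin n →₀ ℕ) // x.2.degree + degs n d r L x.1 = r}
    {μ : Fin n →₀ ℕ // μ.degree = r} A (by
      intro w
      obtain ⟨p, hp, rfl⟩ := coeffs_surj (Kf (d + 1) n) n r w
      let f : MvPolynomial (Fin (d + 1) × Fin n) ℤ →+* Kf (d + 1) n :=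
        (algebraMap (MvPolynomial (Fin (d + 1) × Fin n) (ZMod 2)) (Kf (d + 1) n)).comp
          (MvPolynomial.map (Int.castRingHom (ZMod 2)))
      have hfX : (fun y => f (X y)) = fun y : Fin (d + 1) × Fin n => gen (d + 1) n y.1 y.2 := by
        funext y
        simp [f, gen]
      have h1 := ht2 n d L hL hE r hdr p hp
      have h2 : p ∈ Ideal.span (Set.range (gens n d r L (fun y => f (X y)))) := by
        rw [hfX, span_gens]
        exact h1
      have h3 := mem_span_of_homog _ _ (gens_homog n d r L (fun y => f (X y))) r p hp h2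
      have h4 := Submodule.mem_map_of_mem (f := coeffs (Kf (d + 1) n) n r) h3
      rw [Submodule.map_span, ← Set.range_comp] at h4
      have h5 : (fun i : {x : GI n d L × (Fin n →₀ ℕ) // x.2.degree + degs n d r L x.1 = r} =>
          fun j : {μ : Fin n →₀ ℕ // μ.degree = r} =>
          algebraMap (MvPolynomial (Fin (d + 1) × Fin n) (ZMod 2)) (Kf (d + 1) n)
          (MvPolynomial.map (Int.castRingHom (ZMod 2)) (A i j))) =
          (coeffs (Kf (d + 1) n) n r ∘ fun x => monomial x.1.2 (1 : Kf (d + 1) n) *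
            gens n d r L (fun y => f (X y)) x.1.1) := by
        funext x
        exact hrow (Kf (d + 1) n) f x
      rw [h5]
      exact h4)
  refine ⟨F, hF0, ?_⟩
  intro k _ _ c hc p hp
  have h1 := hF k c hc (coeffs k n r p)
  have h2 : (fun i : {x : GI n d L × (Fin n →₀ ℕ) // x.2.degree + degs n d r L x.1 = r} =>
      fun j : {μ : Fin n →₀ ℕ // μ.degree = r} => aeval c (A i j)) =
      (coeffs k n r ∘ fun x => monomial x.1.2 (1 : k) * gens n d r L c x.1.1) := by
    funext x
    have := hrow k (aeval c : MvPolynomial (Fin (d + 1) × Fin n) ℤ →ₐ[ℤ] k).toRingHom x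
    simpa using this
  rw [h2, Set.range_comp, ← Submodule.map_span] at h1
  obtain ⟨q, hq, hqp⟩ := h1
  have h3 : q.IsHomogeneous r ∧ q ∈ Ideal.span (Set.range (gens n d r L c)) := by
    refine Submodule.span_induction (p := fun q _ => q.IsHomogeneous r ∧
      q ∈ Ideal.span (Set.range (gens n d r L c))) ?_ ?_ ?_ ?_ hq
    · rintro _ ⟨x, rfl⟩
      refine ⟨?_, ?_⟩
      · have := (isHomogeneous_monomial (σ := Fin n) (d := x.1.2) (1 : k) rfl).mul
          (gens_homog n d r L c x.1.1)
        rw [x.2] at this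
        exact this
      · exact Ideal.mul_mem_left _ _ (Ideal.subset_span ⟨_, rfl⟩)
    · exact ⟨isHomogeneous_zero _ _ _, Ideal.zero_mem _⟩
    · intro x y _ _ hx hy
      exact ⟨hx.1.add hy.1, Ideal.add_mem _ hx.2 hy.2⟩
    · intro a x _ hx
      refine ⟨(homogeneousSubmodule (Fin n) k r).smul_mem a hx.1, ?_⟩
      rw [MvPolynomial.smul_eq_C_mul]
      exact Ideal.mul_mem_left _ _ hx.2
  have h4 : q = p := coeffs_inj k n r q p h3.1 hp hqp
  rw [← h4, ← span_gens]
  exact h3.2

end Pool.Agent.W472.KS
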